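import Pool.Agent.MP_b746ed_mp.Defs
import Pool.Agent.MP_b746ed_mp.Approx

set_option autoImplicit false
open scoped ComplexOrder
open Pool.Agent.MP_b746ed_mp

namespace Pool.Agent.Results.MP_b746ed_mp.LogAncilla

/-- The output of a product of depolarizing channels, tensored with a maximally mixed ancilla of
dimension of order `n log d`, is majorized by the output at a pure product input tensored with a
pure ancilla. -/
theorem result :
    ∀ (d n : ℕ), 2 ≤ d → 1 ≤ n → ∀ T : ℝ, 4 ≤ T →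
    ∀ q : Fin n → ℝ, (∀ i, 0 ≤ q i ∧ q i < 1 ∧ 1 + d * q i / (1 - q i) ≤ T) →
    ∀ m : ℕ, 1600 * T ^ 9 * (n * Real.log d) ≤ m → ∀ j : Fin m,
    ∀ N : Matrix ((Fin n → Fin d) × Fin m) ((Fin n → Fin d) × Fin m) ℂ → ℝ,
    (∀ X Y : Matrix ((Fin n → Fin d) × Fin m) ((Fin n → Fin d) × Fin m) ℂ,
      N (X + Y) ≤ N X + N Y) →
    (∀ (c : ℂ) (X : Matrix ((Fin n → Fin d) × Fin m) ((Fin n → Fin d) × Fin m) ℂ),
      N (c • X) = ‖c‖ * N X) →
    (∀ X : Matrix ((Fin n → Fin d) × Fin m) ((Fin n → Fin d) × Fin m) ℂ, N X = 0 → X = 0) →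
    (∀ X U V : Matrix ((Fin n → Fin d) × Fin m) ((Fin n → Fin d) × Fin m) ℂ,
      U ∈ Matrix.unitaryGroup ((Fin n → Fin d) × Fin m) ℂ →
      V ∈ Matrix.unitaryGroup ((Fin n → Fin d) × Fin m) ℂ → N (U * X * V) = N X) →
    ∃ ψ : Fin n → Fin d → ℂ, (∀ i, ∑ j, ‖ψ i j‖ ^ 2 = 1) ∧
      ∀ ρ : Matrix (Fin n → Fin d) (Fin n → Fin d) ℂ, ρ.PosSemidef → ρ.trace = 1 →
        N (Matrix.kronecker (depol d n q ρ) ((1 / (m : ℂ)) • (1 : Matrix (Fin m) (Fin m) ℂ))) ≤
          N (Matrix.kronecker (depol d n q (prodState ψ)) (Matrix.single j j 1)) := by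
  intro d n hd hn T hT q hq m hm j N hadd hsmul _ hU
  have hΦ' : ∀ X, depol d n q X = KF.chan q X := fun X => by
    ext a b
    rw [KF.chan_apply, Fintype.card_fin, Fintype.card_fin]
    rfl
  refine ⟨fun _ => Pi.single ⟨0, by omega⟩ 1, fun i => by simp [Pi.single_apply, apply_ite], ?_⟩
  intro ρ hρ htr
  have e : prodState (fun _ : Fin n => (Pi.single (⟨0, by omega⟩ : Fin d) (1 : ℂ) : Fin d → ℂ)) =
      KF.op (Pi.single (fun _ => ⟨0, by omega⟩) 1) (Pi.single (fun _ => ⟨0, by omega⟩) 1) := by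
    ext a b
    simp only [prodState, Matrix.of_apply, KF.op_apply, Pi.single_apply, Finset.prod_mul_distrib,
      apply_ite star, star_one, star_zero, Finset.prod_boole, Finset.mem_univ, true_imp_iff,
      funext_iff]
  rw [e, hΦ', hΦ']
  exact H14.norm5 _ (by simpa using hd) hn hT (by simpa using hq) (by simpa using hm) j hadd hsmul
    hU hρ htr

end Pool.Agent.Results.MP_b746ed_mp.LogAncilla
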