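import Pool.Agent.MP_b746ed_mp.Defs
import Pool.Agent.MP_b746ed_mp.LexTwo

set_option autoImplicit false
open scoped ComplexOrder
open Pool.Agent.MP_b746ed_mp

namespace Pool.Agent.Results.MP_b746ed_mp.NoiseRegion

/-- Every unitarily invariant norm of the output of a product of depolarizing channels is maximal
at a pure product input, for all `d` and `n`, on an explicit region of the parameters. -/
theorem result :
    ∀ (d n : ℕ), 2 ≤ d → 1 ≤ n →
    ∀ q : Fin n → ℝ, (∀ i, 0 ≤ q i ∧ q i < 1) →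
    ∀ r : Fin n → ℝ, (∀ i, r i = d * q i / (1 - q i)) →
    ∀ (A : Finset (Fin n)) (rk : Fin n → ℕ), Function.Injective rk →
    (∀ i ∈ A, ∏ j ∈ Finset.univ.erase i, (1 + r j) ≤ 1 + ∑ j ∈ A, r j) →
    (∀ i, i ∉ A →
      ∏ j ∈ Finset.univ.filter (fun j => j ∉ A ∧ rk i < rk j), (1 + r j) ≤ 1 + r i) →
    ∀ N : Matrix (Fin n → Fin d) (Fin n → Fin d) ℂ → ℝ,
    (∀ X Y : Matrix (Fin n → Fin d) (Fin n → Fin d) ℂ, N (X + Y) ≤ N X + N Y) →
    (∀ (c : ℂ) (X : Matrix (Fin n → Fin d) (Fin n → Fin d) ℂ), N (c • X) = ‖c‖ * N X) →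
    (∀ X : Matrix (Fin n → Fin d) (Fin n → Fin d) ℂ, N X = 0 → X = 0) →
    (∀ X U V : Matrix (Fin n → Fin d) (Fin n → Fin d) ℂ,
      U ∈ Matrix.unitaryGroup (Fin n → Fin d) ℂ →
      V ∈ Matrix.unitaryGroup (Fin n → Fin d) ℂ → N (U * X * V) = N X) →
    ∃ ψ : Fin n → Fin d → ℂ, (∀ i, ∑ j, ‖ψ i j‖ ^ 2 = 1) ∧
      ∀ ρ : Matrix (Fin n → Fin d) (Fin n → Fin d) ℂ, ρ.PosSemidef → ρ.trace = 1 →
        N (depol d n q ρ) ≤ N (depol d n q (prodState ψ)) := by
  intro d n hd hn q hq r hr A rk hrk hA hB N hadd hsmul _ hU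
  have hΦ' : ∀ X, depol d n q X = KF.chan q X := fun X => by
    ext a b
    rw [KF.chan_apply, Fintype.card_fin, Fintype.card_fin]
    rfl
  refine ⟨fun _ => Pi.single ⟨0, by omega⟩ 1, fun i => by simp [Pi.single_apply, apply_ite], ?_⟩
  intro ρ hρ htr
  have e : prodState (fun _ : Fin n => (Pi.single (⟨0, by omega⟩ : Fin d) (1 : ℂ) : Fin d → ℂ)) =
      KF.op (Pi.single (fun _ => ⟨0, by omega⟩) 1) (Pi.single (fun _ => ⟨0, by omega⟩) 1) := by
    ext a b
    simp only [prodState, Matrix.of_apply, KF.op_apply, Pi.single_apply, Finset.prod_mul_distrib,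
      apply_ite star, star_one, star_zero, Finset.prod_boole, Finset.mem_univ, true_imp_iff,
      funext_iff]
  rw [e, hΦ', hΦ']
  exact KF.norm_lex (by simpa using hd) _ hq (by simpa using hr) A rk hrk hA hB N hadd hsmul hU
    hρ htr

end Pool.Agent.Results.MP_b746ed_mp.NoiseRegion
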